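import Pool.Agent.R676.Cox.Geo

/-!
# Homomorphisms of Coxeter groups given by embeddings of Coxeter matrices
-/

set_option autoImplicit false

namespace Pool.Agent.N77.CX

open Pool.Agent.R676.Cox
open Pool.Agent.Helper741 (cc)

variable {S T W W' : Type} [Group W] [Group W'] {M : CoxeterMatrix S} {M' : CoxeterMatrix T}
  (cs : CoxeterSystem M W) (cs' : CoxeterSystem M' W') (ι : S → T)
  (hι : ∀ x y, M' (ι x) (ι y) = M x y)

/-- the homomorphism given by a map which preserves the labels -/
def cmap : W →* W' := cs.lift ⟨fun i => cs'.simple (ι i), fun i j => by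
  rw [← hι]
  exact cs'.simple_mul_simple_pow _ _⟩

theorem cmap_simple (i : S) : cmap cs cs' ι hι (cs.simple i) = cs'.simple (ι i) :=
  CoxeterSystem.lift_apply_simple _ _ _

/-- the linear map -/
noncomputable def Jm (ι : S → T) : (S →₀ ℝ) →ₗ[ℝ] (T →₀ ℝ) := Finsupp.lmapDomain ℝ ℝ ι

theorem Jm_ee (i : S) : Jm ι (ee i) = ee (ι i) := by
  simp [Jm, ee, Finsupp.mapDomain_single]

theorem Jm_coroot (hι : ∀ x y, M' (ι x) (ι y) = M x y) (i : S) (v : S →₀ ℝ) :
    coroot M' (ι i) (Jm ι v) = coroot M i v := by
  have h : (coroot M' (ι i)).comp (Jm ι) = coroot M i := by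
    apply Finsupp.lhom_ext'
    intro j
    apply LinearMap.ext_ring
    show coroot M' (ι i) (Jm ι (ee j)) = coroot M i (ee j)
    rw [Jm_ee, coroot_ee, coroot_ee]
    simp only [cc, hι]
  exact DFunLike.congr_fun h v

theorem Jm_geo (w : W) (v : S →₀ ℝ) : Jm ι (geo cs w v) = geo cs' (cmap cs cs' ι hι w) (Jm ι v) := by
  induction w using cs.simple_induction_left generalizing v with
  | one => simp
  | mul_simple_left w i ih =>
    rw [map_mul, map_mul, map_mul, Module.End.mul_apply, Module.End.mul_apply, cmap_simple,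
      geo_simple, geo_simple, ← ih, sg_apply, sg_apply, map_sub, map_smul, Jm_ee,
      Jm_coroot ι hι]

theorem cmap_injective (hinj : Function.Injective ι) : Function.Injective (cmap cs cs' ι hι) := by
  rw [injective_iff_map_eq_one]
  intro w hw
  apply geo_injective cs
  rw [map_one]
  apply LinearMap.ext
  intro v
  have h1 := Jm_geo cs cs' ι hι w v
  rw [hw, map_one, Module.End.one_apply] at h1
  rw [Module.End.one_apply]
  exact Finsupp.mapDomain_injective hinj h1

end Pool.Agent.N77.CX
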