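import Pool.Agent.N77.CX.Eppa
import Pool.Agent.N77.CX.Par
import Pool.Agent.N77.GP.Basic
import Pool.Agent.R779.FJ.Col
import Pool.Agent.Y529.FJ.Ext
import Pool.Agent.Y961.FJ.Perm

/-!
# Extensions by Coxeter groups of arbitrary rank
-/

set_option autoImplicit false

namespace Pool.Agent.N77.CX

open Pool.Agent.Y110.FJ
open Pool.Agent.Y462.SS (Closed)
open Pool.Agent.N77.GP (MT il tt mt_pow mt_one tt_conj)

variable {C : ∀ (G : Type) [Group G], Prop}

/-- realization in a mapping torus -/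
theorem realized_of {G : Type} [Group G] (S : Subgroup G) {g n m : G} (hg : g = n * m) {E : Set G}
    (hES : E ⊆ S) (hn : n ∈ S) (hmE : ∀ x ∈ E, m * x * m⁻¹ ∈ S) {P : Type} [Group P] (hP : C P)
    (f : S →* P) (hf : Function.Injective f) (t : P)
    (ht : ∀ x (hx : x ∈ E), f ⟨m * x * m⁻¹, hmE x hx⟩ = t * f ⟨x, hES hx⟩ * t⁻¹) :
    Realized C g E := by
  have hgx : ∀ x, g * x * g⁻¹ = n * (m * x * m⁻¹) * n⁻¹ := by
    intro x
    rw [hg]
    group
  have hle : Subgroup.closure (E ∪ (fun x => g * x * g⁻¹) '' E) ≤ S := by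
    rw [Subgroup.closure_le]
    refine Set.union_subset hES ?_
    rintro _ ⟨x, hx, rfl⟩
    show g * x * g⁻¹ ∈ S
    rw [hgx]
    exact mul_mem (mul_mem hn (hmE x hx)) (inv_mem hn)
  refine ⟨P, inferInstance, f.comp (Subgroup.inclusion hle), f ⟨n, hn⟩ * t, hP,
    hf.comp (Subgroup.inclusion_injective hle), ?_⟩
  intro x y hx hy
  have h1 : Subgroup.inclusion hle y = ⟨n, hn⟩ * ⟨m * x * m⁻¹, hmE x hx⟩ * (⟨n, hn⟩ : S)⁻¹ := by
    apply Subtype.ext
    show (y : G) = n * (m * x * m⁻¹) * n⁻¹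
    rw [hy, hgx]
  have h2 : Subgroup.inclusion hle x = ⟨x, hES hx⟩ := rfl
  rw [MonoidHom.comp_apply, MonoidHom.comp_apply, h1, h2, map_mul, map_mul, map_inv, ht x hx]
  group

section auto

variable {T : Type} {M' : CoxeterMatrix T}

/-- the automorphism given by a permutation of the simple reflections -/
noncomputable def taut (τ : Equiv.Perm T) (hτ : ∀ x y, M' (τ x) (τ y) = M' x y) :
    MulAut M'.Group :=
  MonoidHom.toMulEquiv (cmap M'.toCoxeterSystem M'.toCoxeterSystem τ hτ)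
    (cmap M'.toCoxeterSystem M'.toCoxeterSystem τ.symm (fun x y => by
      rw [← hτ, τ.apply_symm_apply, τ.apply_symm_apply]))
    (M'.toCoxeterSystem.ext_simple fun i => by
      rw [MonoidHom.comp_apply, cmap_simple, cmap_simple, τ.symm_apply_apply]
      rfl)
    (M'.toCoxeterSystem.ext_simple fun i => by
      rw [MonoidHom.comp_apply, cmap_simple, cmap_simple, τ.apply_symm_apply]
      rfl)

theorem taut_simple (τ : Equiv.Perm T) (hτ : ∀ x y, M' (τ x) (τ y) = M' x y) (i : T) :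
    taut τ hτ (M'.toCoxeterSystem.simple i) = M'.toCoxeterSystem.simple (τ i) :=
  cmap_simple _ _ _ hτ _

theorem taut_pow_simple (τ : Equiv.Perm T) (hτ : ∀ x y, M' (τ x) (τ y) = M' x y) (k : ℕ) (i : T) :
    (taut τ hτ ^ k) (M'.toCoxeterSystem.simple i) = M'.toCoxeterSystem.simple ((τ ^ k) i) := by
  induction k with
  | zero => simp
  | succ k ih =>
    rw [pow_succ', MulAut.mul_apply, ih, taut_simple, pow_succ']
    rfl

theorem taut_pow (τ : Equiv.Perm T) (hτ : ∀ x y, M' (τ x) (τ y) = M' x y) (k : ℕ)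
    (hk : τ ^ k = 1) : taut τ hτ ^ k = 1 := by
  apply MulEquiv.toMonoidHom_injective
  apply M'.toCoxeterSystem.ext_simple
  intro i
  have h := taut_pow_simple τ hτ k i
  rw [hk] at h
  exact h

theorem C_taut (hC : ClosedE C) [Finite T] (hW : C M'.Group) (τ : Equiv.Perm T)
    (hτ : ∀ x y, M' (τ x) (τ y) = M' x y) : C (MT M'.Group (taut τ hτ)) := by
  have hfin : IsOfFinOrder τ := isOfFinOrder_of_finite τ
  refine mt_pow hC.base (k := orderOf τ) hfin.orderOf_pos ?_
  rw [taut_pow τ hτ _ (pow_orderOf_eq_one τ)]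
  exact mt_one hC.base hW

end auto

section main

variable {G B : Type} [Group G] {N : Subgroup G} {M : CoxeterMatrix B} (cs : CoxeterSystem M N)

/-- the subgroup generated by some simple reflections -/
def PJ (J : Set B) : Subgroup G := Subgroup.closure ((fun b => (cs.simple b : G)) '' J)

theorem PJ_mono {J J' : Set B} (h : J ⊆ J') : PJ cs J ≤ PJ cs J' :=
  Subgroup.closure_mono (Set.image_mono h)

theorem ex_supp {x : G} (hx : x ∈ N) : ∃ J : Set B, J.Finite ∧ x ∈ PJ cs J := by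
  obtain ⟨y, rfl⟩ : ∃ y : N, (y : G) = x := ⟨⟨x, hx⟩, rfl⟩
  induction y using cs.simple_induction_left with
  | one => exact ⟨∅, Set.finite_empty, one_mem _⟩
  | mul_simple_left w i ih =>
    obtain ⟨J, hJ, h1⟩ := ih w.2
    refine ⟨insert i J, hJ.insert i, ?_⟩
    have h2 : (cs.simple i : G) ∈ PJ cs (insert i J) :=
      Subgroup.subset_closure ⟨i, Set.mem_insert i J, rfl⟩
    exact mul_mem h2 (PJ_mono cs (Set.subset_insert i J) h1)

theorem ex_supp_fin {E : Set G} (hE : E.Finite) (hEN : E ⊆ N) :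
    ∃ J : Set B, J.Finite ∧ ∀ x ∈ E, x ∈ PJ cs J := by
  induction E, hE using Set.Finite.induction_on with
  | empty => exact ⟨∅, Set.finite_empty, fun x hx => absurd hx (Set.notMem_empty x)⟩
  | @insert a s _ _ ih =>
    obtain ⟨S, hS, h1⟩ := ih (fun x hx => hEN (Set.mem_insert_of_mem _ hx))
    obtain ⟨S', hS', h2⟩ := ex_supp cs (hEN (Set.mem_insert _ _))
    refine ⟨S ∪ S', hS.union hS', fun x hx => ?_⟩
    rcases hx with rfl | hx
    · exact PJ_mono cs (Set.subset_union_right : S' ⊆ S ∪ S') h2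
    · exact PJ_mono cs (Set.subset_union_left : S ⊆ S ∪ S') (h1 x hx)

/-- the restriction of a Coxeter matrix -/
def rest (M : CoxeterMatrix B) (J : Set B) : CoxeterMatrix J where
  M := Matrix.of fun x y => M x.1 y.1
  isSymm := by
    ext x y
    exact M.symmetric y.1 x.1
  diagonal x := M.diagonal x.1
  off_diagonal x y h := M.off_diagonal x.1 y.1 (fun h1 => h (Subtype.ext h1))

/-- **extensions by Coxeter groups** -/
theorem cox_main (hC : ClosedE C)
    (hcox : ∀ (S : Type) (_ : Finite S) (A : CoxeterMatrix S), C A.Group)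
    [N.Normal] (Q : Subgroup G) [MulAction Q B] (hNQ : N ⊔ Q = ⊤)
    (hM : ∀ (m : Q) (b b' : B), M (m • b) (m • b') = M b b')
    (hconj : ∀ (m : Q) (b : B), (m : G) * (cs.simple b : G) * (m : G)⁻¹ = cs.simple (m • b))
    (hQ : C (G ⧸ N)) : C G := by
  refine Pool.Agent.R779.FJ.t_crit Pool.Agent.Y529.FJ.t_ext
    (Pool.Agent.Y961.FJ.t_perm Pool.Agent.Y529.FJ.t_ext) C hC G N hQ fun g E hE hEN => ?_
  have hg : g ∈ N ⊔ Q := by
    rw [hNQ]
    exact Subgroup.mem_top g
  rw [Subgroup.mem_sup_of_normal_left] at hg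
  obtain ⟨n, hn, m, hm, hnm⟩ := hg
  obtain ⟨J, hJ, hJE⟩ := ex_supp_fin cs (hE.insert n) (Set.insert_subset hn hEN)
  obtain ⟨J', hJ'⟩ : ∃ J' : Set B, J' = J ∪ (fun b => (⟨m, hm⟩ : Q) • b) '' J := ⟨_, rfl⟩
  have hfin : Finite J' := by
    rw [hJ']
    exact hJ.union (hJ.image _)
  have hJJ' : ∀ b ∈ J, b ∈ J' := fun b hb => by rw [hJ']; exact Or.inl hb
  have hmJ : ∀ b ∈ J, (⟨m, hm⟩ : Q) • b ∈ J' := fun b hb => by
    rw [hJ']
    exact Or.inr ⟨b, hb, rfl⟩
  obtain ⟨T, _, M', ι, τ, hι, hιM, hτ, hτι⟩ := eppa J' (rest M J')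
    {x | (⟨m, hm⟩ : Q) • x.1 ∈ J'} (fun x => ⟨(⟨m, hm⟩ : Q) • x.1.1, x.2⟩)
    (fun x y hxy => Subtype.ext (Subtype.ext (MulAction.injective (⟨m, hm⟩ : Q)
      (congrArg Subtype.val hxy))))
    (fun x y => hM ⟨m, hm⟩ x.1.1 y.1.1)
  -- the embeddings of the finitely generated Coxeter group
  have hsub : ∀ x y : J', M x.1 y.1 = rest M J' x y := fun _ _ => rfl
  have hαinj := cmap_injective (rest M J').toCoxeterSystem cs Subtype.val hsub
    Subtype.val_injective
  have hβinj := cmap_injective (rest M J').toCoxeterSystem M'.toCoxeterSystem ι hιM hι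
  obtain ⟨a, ha⟩ : ∃ a : (rest M J').Group →* G,
    a = N.subtype.comp (cmap (rest M J').toCoxeterSystem cs Subtype.val hsub) := ⟨_, rfl⟩
  have hainj : Function.Injective a := by
    rw [ha]
    exact Subtype.val_injective.comp hαinj
  have has : ∀ b : J', a ((rest M J').toCoxeterSystem.simple b) = (cs.simple b.1 : G) := by
    intro b
    rw [ha, MonoidHom.comp_apply, cmap_simple]
    rfl
  obtain ⟨β, hβ⟩ : ∃ β : (rest M J').Group →* M'.Group,
    β = cmap (rest M J').toCoxeterSystem M'.toCoxeterSystem ι hιM := ⟨_, rfl⟩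
  rw [← hβ] at hβinj
  have hβs : ∀ b : J', β ((rest M J').toCoxeterSystem.simple b) =
      M'.toCoxeterSystem.simple (ι b) := by
    intro b
    rw [hβ, cmap_simple]
  -- conjugation by `m`
  have key : ∀ x ∈ PJ cs J, ∃ w w' : (rest M J').Group, a w = x ∧ a w' = m * x * m⁻¹ ∧
      β w' = taut τ hτ (β w) := by
    intro x hx
    induction hx using Subgroup.closure_induction with
    | mem x hx =>
      obtain ⟨b, hb, rfl⟩ := hx
      refine ⟨(rest M J').toCoxeterSystem.simple ⟨b, hJJ' b hb⟩,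
        (rest M J').toCoxeterSystem.simple ⟨(⟨m, hm⟩ : Q) • b, hmJ b hb⟩, has _, ?_, ?_⟩
      · rw [has]
        exact (hconj ⟨m, hm⟩ b).symm
      · rw [hβs, hβs, taut_simple]
        congr 1
        exact (hτι ⟨⟨b, hJJ' b hb⟩, hmJ b hb⟩).symm
    | one => exact ⟨1, 1, by simp, by simp, by simp⟩
    | mul x y _ _ hx hy =>
      obtain ⟨w, w', h1, h2, h3⟩ := hx
      obtain ⟨v, v', h4, h5, h6⟩ := hy
      refine ⟨w * v, w' * v', by rw [map_mul, h1, h4], ?_, by rw [map_mul, map_mul, map_mul, h3, h6]⟩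
      rw [map_mul, h2, h5]
      group
    | inv x _ hx =>
      obtain ⟨w, w', h1, h2, h3⟩ := hx
      refine ⟨w⁻¹, w'⁻¹, by rw [map_inv, h1], ?_, by rw [map_inv, map_inv, map_inv, h3]⟩
      rw [map_inv, h2]
      group
  have hES : E ⊆ (a.range : Set G) := by
    intro x hx
    obtain ⟨w, -, h1, -⟩ := key x (hJE x (Set.mem_insert_of_mem n hx))
    exact ⟨w, h1⟩
  have hnS : n ∈ a.range := by
    obtain ⟨w, -, h1, -⟩ := key n (hJE n (Set.mem_insert n E))
    exact ⟨w, h1⟩
  have hmE : ∀ x ∈ E, m * x * m⁻¹ ∈ a.range := by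
    intro x hx
    obtain ⟨w, w', h1, h2, -⟩ := key x (hJE x (Set.mem_insert_of_mem n hx))
    exact ⟨w', h2⟩
  have hsymm : ∀ (w : (rest M J').Group) (x : G) (hx : x ∈ a.range), a w = x →
      (MonoidHom.ofInjective hainj).symm ⟨x, hx⟩ = w := by
    intro w x hx hw
    rw [MulEquiv.symm_apply_eq]
    apply Subtype.ext
    exact hw.symm
  refine realized_of a.range hnm.symm hES hnS hmE (C_taut hC (hcox T inferInstance M') τ hτ)
    ((il (taut τ hτ)).comp (β.comp (MonoidHom.ofInjective hainj).symm.toMonoidHom)) ?_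
    (tt (taut τ hτ)) ?_
  · exact SemidirectProduct.inl_injective.comp
      (hβinj.comp (MonoidHom.ofInjective hainj).symm.injective)
  · intro x hx
    obtain ⟨w, w', h1, h2, h3⟩ := key x (hJE x (Set.mem_insert_of_mem n hx))
    show il _ (β ((MonoidHom.ofInjective hainj).symm _)) =
      tt _ * il _ (β ((MonoidHom.ofInjective hainj).symm _)) * (tt _)⁻¹
    rw [hsymm w x _ h1, hsymm w' _ _ h2, tt_conj, h3]

end main

end Pool.Agent.N77.CX
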