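import Mathlib

/-!
# Extension of partial automorphisms of finite Coxeter matrices
-/

set_option autoImplicit false

namespace Pool.Agent.N77.CX

/-- an orientation of the labels -/
theorem ex_orient {S : Type} (M : CoxeterMatrix S) (n : ℕ) :
    ∃ c : S → S → ZMod n, (∀ x, c x x = 0) ∧ ∀ x y, x ≠ y → c x y + c y x = (M x y : ZMod n) := by
  classical
  let r : LinearOrder S := WellOrderingRel.isWellOrder.linearOrder
  refine ⟨fun x y => if r.lt x y then (M x y : ZMod n) else 0, fun x => ?_, fun x y hxy => ?_⟩
  · simp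
  · rcases lt_trichotomy x y with h | h | h
    · have h' : ¬ (y < x) := not_lt_of_gt h
      simp [h, h']
    · exact absurd h hxy
    · have h' : ¬ (x < y) := not_lt_of_gt h
      simp [h, h', M.symmetric y x]

/-- labels that are allowed outside of the diagonal -/
def lam {n : ℕ} (a : ZMod n) : ℕ := if a.val = 1 then 2 else a.val

theorem lam_ne {n : ℕ} (a : ZMod n) : lam a ≠ 1 := by
  unfold lam
  split_ifs with h
  · norm_num
  · exact h

open Classical in
/-- the large Coxeter matrix -/
noncomputable def bigM (S : Type) (n : ℕ) : CoxeterMatrix (S × (S → ZMod n)) where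
  M := Matrix.of fun p q => if p = q then 1 else if p.1 = q.1 then 2 else lam (p.2 q.1 + q.2 p.1)
  isSymm := by
    ext p q
    simp only [Matrix.transpose_apply, Matrix.of_apply]
    by_cases h : p = q
    · simp [h]
    · by_cases h1 : p.1 = q.1
      · rw [if_neg (fun h2 => h h2.symm), if_neg h, if_pos h1.symm, if_pos h1]
      · rw [if_neg (fun h2 => h h2.symm), if_neg h, if_neg (fun h2 => h1 h2.symm), if_neg h1,
          add_comm]
  diagonal := by simp
  off_diagonal := by
    intro p q h
    simp only [Matrix.of_apply, if_neg h]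
    split_ifs with h1
    · norm_num
    · exact lam_ne _

theorem bigM_apply (S : Type) (n : ℕ) (p q : S × (S → ZMod n)) (h : p.1 ≠ q.1) :
    bigM S n p q = lam (p.2 q.1 + q.2 p.1) := by
  classical
  show (if p = q then 1 else if p.1 = q.1 then 2 else lam (p.2 q.1 + q.2 p.1)) = _
  rw [if_neg (fun h2 => h (congrArg Prod.fst h2)), if_neg h]

theorem bigM_apply' (S : Type) (n : ℕ) (p q : S × (S → ZMod n)) (h : p ≠ q) (h1 : p.1 = q.1) :
    bigM S n p q = 2 := by
  classical
  show (if p = q then 1 else if p.1 = q.1 then 2 else lam (p.2 q.1 + q.2 p.1)) = _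
  rw [if_neg h, if_pos h1]

/-- **extension of partial automorphisms** -/
theorem eppa (S : Type) [Finite S] (M : CoxeterMatrix S) (D : Set S) (f : D → S)
    (hinj : Function.Injective f) (hadj : ∀ x y : D, M (f x) (f y) = M x y) :
    ∃ (T : Type) (_ : Finite T) (M' : CoxeterMatrix T) (ι : S → T) (τ : Equiv.Perm T),
      Function.Injective ι ∧ (∀ x y, M' (ι x) (ι y) = M x y) ∧
      (∀ x y, M' (τ x) (τ y) = M' x y) ∧ ∀ x : D, τ (ι x) = ι (f x) := by
  classical
  -- a modulus larger than the labels
  obtain ⟨n, hn0, hn⟩ : ∃ n : ℕ, n ≠ 0 ∧ ∀ x y, M x y < n := by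
    have hf : (Set.range fun p : S × S => M p.1 p.2).Finite := Set.finite_range _
    obtain ⟨b, hb⟩ := hf.bddAbove
    exact ⟨b + 1, Nat.succ_ne_zero b, fun x y => Nat.lt_succ_of_le (hb ⟨(x, y), rfl⟩)⟩
  have : NeZero n := ⟨hn0⟩
  obtain ⟨c, hc0, hc⟩ := ex_orient M n
  obtain ⟨φ, hφ⟩ : ∃ φ : Equiv.Perm S, ∀ x : D, φ x = f x := by
    refine ⟨Equiv.extendSubtype (Equiv.ofInjective f hinj), fun x => ?_⟩
    rw [Equiv.extendSubtype_apply_of_mem _ _ x.2]
    rfl
  let F : S → S → ZMod n := fun x y =>
    if x ∈ D then c (φ x) (φ y) - c x y else if y ∈ D then -(c (φ y) (φ x) - c y x) else 0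
  have key : ∀ x y, x ∈ D → y ∈ D → c (φ x) (φ y) - c x y + (c (φ y) (φ x) - c y x) = 0 := by
    intro x y hx hy
    by_cases hxy : x = y
    · rw [hxy, hc0, hc0]
      simp
    have h1 := hc x y hxy
    have h2 := hc (φ x) (φ y) (fun h => hxy (φ.injective h))
    have h3 : M (φ x) (φ y) = M x y := by
      have := hadj ⟨x, hx⟩ ⟨y, hy⟩
      rw [← hφ, ← hφ] at this
      exact this
    rw [h3, ← h1] at h2
    linear_combination h2
  have hF : ∀ x y, F x y + F y x = 0 := by
    intro x y
    by_cases hx : x ∈ D
    · by_cases hy : y ∈ D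
      · simp only [F, if_pos hx, if_pos hy]
        exact key x y hx hy
      · simp only [F, if_pos hx, if_neg hy]
        ring
    · by_cases hy : y ∈ D
      · simp only [F, if_pos hy, if_neg hx]
        ring
      · simp only [F, if_neg hx, if_neg hy]
        ring
  let τ : Equiv.Perm (S × (S → ZMod n)) :=
    { toFun := fun p => (φ p.1, fun z => p.2 (φ.symm z) + F p.1 (φ.symm z))
      invFun := fun p => (φ.symm p.1, fun z => p.2 (φ z) - F (φ.symm p.1) z)
      left_inv := fun p => by
        refine Prod.ext ?_ ?_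
        · simp
        · funext z
          simp only [Equiv.symm_apply_apply]
          ring
      right_inv := fun p => by
        refine Prod.ext ?_ ?_
        · simp
        · funext z
          simp only [Equiv.apply_symm_apply]
          ring }
  refine ⟨S × (S → ZMod n), inferInstance, bigM S n, fun x => (x, c x), τ, ?_, ?_, ?_, ?_⟩
  · intro x y h
    exact congrArg Prod.fst h
  · intro x y
    by_cases hxy : x = y
    · subst hxy
      rw [(bigM S n).diagonal, M.diagonal]
    · rw [bigM_apply _ _ _ _ hxy]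
      show lam (c x y + c y x) = M x y
      rw [hc x y hxy]
      have h1 : ((M x y : ℕ) : ZMod n).val = M x y := ZMod.val_cast_of_lt (hn x y)
      unfold lam
      rw [h1, if_neg (M.off_diagonal x y hxy)]
  · intro p q
    by_cases hpq : p = q
    · rw [hpq, (bigM S n).diagonal, (bigM S n).diagonal]
    · by_cases h1 : p.1 = q.1
      · rw [bigM_apply' _ _ _ _ hpq h1, bigM_apply' _ _ _ _ (fun h => hpq (τ.injective h))
          (show φ p.1 = φ q.1 by rw [h1])]
      · rw [bigM_apply _ _ _ _ h1, bigM_apply _ _ _ _ (show φ p.1 ≠ φ q.1 from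
          fun h => h1 (φ.injective h))]
        show lam ((p.2 (φ.symm (φ q.1)) + F p.1 (φ.symm (φ q.1))) +
          (q.2 (φ.symm (φ p.1)) + F q.1 (φ.symm (φ p.1)))) = _
        rw [φ.symm_apply_apply, φ.symm_apply_apply]
        congr 1
        linear_combination hF p.1 q.1
  · intro x
    show (φ x, fun z => c x (φ.symm z) + F x (φ.symm z)) = (f x, c (f x))
    refine Prod.ext (hφ x) ?_
    funext z
    show c x (φ.symm z) + F x (φ.symm z) = c (f x) z
    simp only [F, if_pos x.2, Equiv.apply_symm_apply, hφ]
    ring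

end Pool.Agent.N77.CX
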